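import Mathlib

/-!
# Definitions for the hand-in SmallestCounterexample
-/

set_option autoImplicit false

namespace Pool.Agent.Work.MP_9f8812_co

variable {n : ℕ} {ι : Type}

/-- the rank of the set `X` of elements in the vector matroid of `v` -/
noncomputable def rk (v : ι → (Fin n → ZMod 2)) (X : Finset ι) : ℕ :=
  Module.finrank (ZMod 2) ↥(Submodule.span (ZMod 2) (v '' (X : Set ι)))

/-- the characteristic polynomial at `5` of the minor `(M | (T ∪ Y)) / Y` of the vector matroid
`M` of `v` (for disjoint `T`, `Y`) -/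
noncomputable def chp [DecidableEq ι] (v : ι → (Fin n → ZMod 2)) (T Y : Finset ι) : ℤ :=
  ∑ X ∈ T.powerset, (-1 : ℤ) ^ X.card * 5 ^ (rk v (T ∪ Y) - rk v (X ∪ Y))

/-- the vector matroid of `v` has a minor isomorphic to `M(K5)` -/
def K5Minor (v : ι → (Fin n → ZMod 2)) : Prop :=
  ∃ (C : Set ι) (h : (⊤ : SimpleGraph (Fin 5)).edgeSet → ι),
    Function.Injective h ∧ (∀ e, h e ∉ C) ∧
    ∀ F : Set (⊤ : SimpleGraph (Fin 5)).edgeSet,
      (LinearIndependent (ZMod 2)
          (fun e : F => (Submodule.span (ZMod 2) (v '' C)).mkQ (v (h e.1))) ↔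
        (SimpleGraph.fromEdgeSet (Subtype.val '' F)).IsAcyclic)

end Pool.Agent.Work.MP_9f8812_co
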