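import Pool.Agent.Work.MP_9f8812_co.SC1

/-!
# Small corank: light functionals
-/

set_option autoImplicit false

namespace Pool.Agent.Work.MP_9f8812_co

open Submodule Module

variable {n : ℕ} {ι : Type} [DecidableEq ι] {v : ι → (Fin n → ZMod 2)}

/-- linear forms -/
abbrev Du (n : ℕ) : Type := (Fin n → ZMod 2) →ₗ[ZMod 2] ZMod 2

instance : Finite (Du n) := Module.finite_of_finite (ZMod 2)

noncomputable instance : Fintype (Du n) := Fintype.ofFinite _

open Classical in
/-- the linear forms which vanish on `W` -/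
noncomputable def An (W : Submodule (ZMod 2) (Fin n → ZMod 2)) : Finset (Du n) :=
  Finset.univ.filter (fun f => W ≤ LinearMap.ker f)

lemma mem_An {W : Submodule (ZMod 2) (Fin n → ZMod 2)} {f : Du n} :
    f ∈ An W ↔ W ≤ LinearMap.ker f := by
  simp [An]

lemma card_An (W : Submodule (ZMod 2) (Fin n → ZMod 2)) :
    (An W).card = 2 ^ (n - finrank (ZMod 2) ↥W) := by
  classical
  have h1 : finrank (ZMod 2) ↥W + finrank (ZMod 2) ↥(W.dualAnnihilator) = n := by
    rw [Subspace.finrank_add_finrank_dualAnnihilator_eq, Module.finrank_fin_fun]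
  have h2 : (An W).card = Nat.card ↥(W.dualAnnihilator) := by
    rw [Nat.card_eq_fintype_card, Fintype.card_subtype]
    congr 1
    ext f
    rw [mem_An, Finset.mem_filter]
    constructor
    · intro h
      refine ⟨Finset.mem_univ _, ?_⟩
      rw [Submodule.mem_dualAnnihilator]
      intro w hw
      exact h hw
    · rintro ⟨-, h⟩ w hw
      rw [Submodule.mem_dualAnnihilator] at h
      exact h w hw
  rw [h2, Nat.card_eq_fintype_card, Module.card_eq_pow_finrank (K := ZMod 2), ZMod.card]
  congr 1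
  omega

open Classical in
/-- at most half of the forms do not vanish at `x` -/
lemma half (W : Submodule (ZMod 2) (Fin n → ZMod 2)) (x : Fin n → ZMod 2) :
    2 * ((An W).filter (fun f => f x ≠ 0)).card ≤ (An W).card := by
  by_cases h : ∃ f₀ ∈ An W, f₀ x ≠ 0
  · obtain ⟨f₀, hf₀, hx⟩ := h
    have h1 : ((An W).filter (fun f => f x ≠ 0)).card ≤
        ((An W).filter (fun f => ¬ f x ≠ 0)).card := by
      refine Finset.card_le_card_of_injOn (fun f => f + f₀) ?_ ?_
      · intro f hf
        have hf' := Finset.mem_filter.1 (Finset.mem_coe.1 hf)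
        refine Finset.mem_coe.2 (Finset.mem_filter.2 ⟨?_, ?_⟩)
        · rw [mem_An] at hf₀ ⊢
          have h3 := mem_An.1 hf'.1
          intro w hw
          have h4 : f w = 0 := h3 hw
          have h5 : f₀ w = 0 := hf₀ hw
          show f w + f₀ w = 0
          rw [h4, h5, add_zero]
        · push Not
          show f x + f₀ x = 0
          exact (by decide : ∀ a b : ZMod 2, a ≠ 0 → b ≠ 0 → a + b = 0) _ _ hf'.2 hx
      · intro f _ g _ hfg
        exact add_right_cancel hfg
    have h2 := Finset.card_filter_add_card_filter_not (s := An W) (fun f => f x ≠ 0)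
    omega
  · push Not at h
    have h1 : (An W).filter (fun f => f x ≠ 0) = ∅ :=
      Finset.filter_eq_empty_iff.2 (fun f hf => not_not.2 (h f hf))
    rw [h1]
    simp

lemma le_D (S : Finset ι) (W : Submodule (ZMod 2) (Fin n → ZMod 2)) :
    finrank (ZMod 2) ↥W ≤ D v S W := Submodule.finrank_mono le_sup_right

/-- a linear form which vanishes on few elements -/
lemma light {S : Finset ι} {W : Submodule (ZMod 2) (Fin n → ZMod 2)} {ρ : ℕ}
    (hρ : D v S W = finrank (ZMod 2) ↥W + (ρ + 1)) : ∃ f : Du n, W ≤ LinearMap.ker f ∧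
      (∃ e ∈ S, f (v e) ≠ 0) ∧
      (S.filter fun i => f (v i) ≠ 0).card * (2 * 2 ^ ρ - 1) ≤ S.card * 2 ^ ρ := by
  classical
  by_contra hcon
  push Not at hcon
  set U := span (ZMod 2) (v '' (S : Set ι)) ⊔ W with hU
  have hDn := D_le v S W
  have hBA : An U ⊆ An W := by
    intro f hf
    rw [mem_An] at hf ⊢
    exact le_trans le_sup_right hf
  set N := 2 ^ ρ with hN
  have hNpos : 0 < N := by positivity
  have hcA : (An W).card = 2 * N * (An U).card := by
    have h1 : finrank (ZMod 2) ↥U = finrank (ZMod 2) ↥W + (ρ + 1) := hρ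
    rw [card_An, card_An, h1, hN, ← pow_succ', ← pow_add]
    congr 1
    rw [hρ] at hDn
    omega
  have hbpos : 0 < (An U).card := Finset.card_pos.2 ⟨0, by
    rw [mem_An, LinearMap.ker_zero]; exact le_top⟩
  -- every form in the difference is heavy
  have hheavy : ∀ f ∈ An W \ An U,
      S.card * N + 1 ≤ (S.filter fun i => f (v i) ≠ 0).card * (2 * N - 1) := by
    intro f hf
    rw [Finset.mem_sdiff, mem_An, mem_An] at hf
    refine hcon f hf.1 ?_
    by_contra hno
    push Not at hno
    refine hf.2 (sup_le (span_le.2 ?_) hf.1)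
    rintro _ ⟨e, he, rfl⟩
    exact hno e he
  have hsum1 : (An W \ An U).card * (S.card * N + 1) ≤
      (∑ f ∈ An W \ An U, (S.filter fun i => f (v i) ≠ 0).card) * (2 * N - 1) := by
    rw [Finset.sum_mul, ← smul_eq_mul]
    exact Finset.card_nsmul_le_sum _ _ _ hheavy
  have hsum2 : ∑ f ∈ An W \ An U, (S.filter fun i => f (v i) ≠ 0).card ≤
      ∑ f ∈ An W, (S.filter fun i => f (v i) ≠ 0).card :=
    Finset.sum_le_sum_of_subset Finset.sdiff_subset
  have hsum3 : 2 * ∑ f ∈ An W, (S.filter fun i => f (v i) ≠ 0).card ≤ S.card * (An W).card := by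
    have h1 : ∑ f ∈ An W, (S.filter fun i => f (v i) ≠ 0).card =
        ∑ i ∈ S, ((An W).filter fun f => f (v i) ≠ 0).card := by
      simp only [Finset.card_filter]
      exact Finset.sum_comm
    rw [h1, Finset.mul_sum, ← smul_eq_mul]
    exact Finset.sum_le_card_nsmul _ _ _ (fun i _ => half W (v i))
  have hcard : (An W \ An U).card = (2 * N - 1) * (An U).card := by
    rw [Finset.card_sdiff_of_subset hBA, hcA, Nat.sub_mul, one_mul]
  rw [hcard] at hsum1
  set s₁ := ∑ f ∈ An W \ An U, (S.filter fun i => f (v i) ≠ 0).card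
  set s₂ := ∑ f ∈ An W, (S.filter fun i => f (v i) ≠ 0).card
  have h2N : 0 < 2 * N - 1 := by omega
  have h3 : (An U).card * (S.card * N + 1) ≤ s₁ := by
    refine Nat.le_of_mul_le_mul_left ?_ h2N
    calc (2 * N - 1) * ((An U).card * (S.card * N + 1)) =
        (2 * N - 1) * (An U).card * (S.card * N + 1) := by ring
      _ ≤ s₁ * (2 * N - 1) := hsum1
      _ = (2 * N - 1) * s₁ := by ring
  rw [hcA] at hsum3
  have h4 : 2 * s₁ ≤ S.card * (2 * N * (An U).card) := le_trans (by omega) hsum3
  have h5 : 2 * ((An U).card * (S.card * N + 1)) ≤ S.card * (2 * N * (An U).card) :=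
    le_trans (Nat.mul_le_mul_left 2 h3) h4
  have h6 : 2 * ((An U).card * (S.card * N + 1)) =
      S.card * (2 * N * (An U).card) + 2 * (An U).card := by ring
  omega

lemma add_self_zero (u : Fin n → ZMod 2) : u + u = 0 := by
  funext i; exact (by decide : ∀ x : ZMod 2, x + x = 0) (u i)

/-- the size of a simple matroid of given rank -/
lemma simple_card {S : Finset ι} {W : Submodule (ZMod 2) (Fin n → ZMod 2)} {ρ : ℕ}
    (hρ : D v S W = finrank (ZMod 2) ↥W + ρ) (hl : ∀ e ∈ S, v e ∉ W)
    (hp : ∀ e ∈ S, ∀ e' ∈ S, e' ≠ e → v e + v e' ∉ W) : S.card + 1 ≤ 2 ^ ρ := by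
  classical
  set U := span (ZMod 2) (v '' (S : Set ι)) ⊔ W with hU
  have hWU : W ≤ U := le_sup_right
  have hvU : ∀ e ∈ S, v e ∈ U := fun e he =>
    (le_sup_left : span (ZMod 2) (v '' (S : Set ι)) ≤ U) (subset_span ⟨e, he, rfl⟩)
  let φ : Option {e // e ∈ S} × ↥W → ↥U := fun p => match p.1 with
    | none => ⟨p.2.1, hWU p.2.2⟩
    | some e => ⟨v e.1 + p.2.1, add_mem (hvU e.1 e.2) (hWU p.2.2)⟩
  have hφ : Function.Injective φ := by
    rintro ⟨o, w⟩ ⟨o', w'⟩ h
    cases o with
    | none =>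
      cases o' with
      | none =>
        have h1 : (φ (none, w)).1 = (φ (none, w')).1 := by rw [h]
        change w.1 = w'.1 at h1
        rw [Subtype.ext h1]
      | some e' =>
        have h1 : (φ (none, w)).1 = (φ (some e', w')).1 := by rw [h]
        change w.1 = v e'.1 + w'.1 at h1
        exfalso
        refine hl e'.1 e'.2 ?_
        have h2 : v e'.1 = w.1 + w'.1 := by
          rw [h1, add_assoc, add_self_zero, add_zero]
        rw [h2]
        exact add_mem w.2 w'.2
    | some e =>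
      cases o' with
      | none =>
        have h1 : (φ (some e, w)).1 = (φ (none, w')).1 := by rw [h]
        change v e.1 + w.1 = w'.1 at h1
        exfalso
        refine hl e.1 e.2 ?_
        have h2 : v e.1 = w'.1 + w.1 := by
          rw [← h1, add_assoc, add_self_zero, add_zero]
        rw [h2]
        exact add_mem w'.2 w.2
      | some e' =>
        have h1 : (φ (some e, w)).1 = (φ (some e', w')).1 := by rw [h]
        change v e.1 + w.1 = v e'.1 + w'.1 at h1
        have h2 : v e.1 + v e'.1 ∈ W := by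
          have h3 : v e.1 + v e'.1 = w.1 + w'.1 := by
            have h4 : v e.1 = v e'.1 + w'.1 + w.1 := by
              rw [← h1, add_assoc, add_self_zero, add_zero]
            rw [h4]
            have h5 : v e'.1 + w'.1 + w.1 + v e'.1 = (v e'.1 + v e'.1) + (w.1 + w'.1) := by abel
            rw [h5, add_self_zero, zero_add]
          rw [h3]
          exact add_mem w.2 w'.2
        have h6 : e' = e := by
          by_contra hne
          exact hp e.1 e.2 e'.1 e'.2 (fun h7 => hne (Subtype.ext h7)) h2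
        subst h6
        have h7 : w.1 = w'.1 := add_left_cancel h1
        rw [Subtype.ext h7]
  have hcard := Nat.card_le_card_of_injective φ hφ
  rw [Nat.card_prod] at hcard
  have hc1 : Nat.card (Option {e // e ∈ S}) = S.card + 1 := by
    rw [Nat.card_eq_fintype_card, Fintype.card_option, Fintype.card_coe]
  have hc2 : Nat.card ↥W = 2 ^ finrank (ZMod 2) ↥W := by
    rw [Nat.card_eq_fintype_card, Module.card_eq_pow_finrank (K := ZMod 2), ZMod.card]
  have hc3 : Nat.card ↥U = 2 ^ (finrank (ZMod 2) ↥W + ρ) := by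
    rw [Nat.card_eq_fintype_card, Module.card_eq_pow_finrank (K := ZMod 2), ZMod.card]
    congr 1
  rw [hc1, hc2, hc3, pow_add, mul_comm] at hcard
  exact Nat.le_of_mul_le_mul_left hcard (by positivity)

/-- corank at most `7` and rank at least `4`: a form which is nonzero on at most `5` elements -/
lemma light4 (ρ : ℕ) : ∀ (S : Finset ι) (W : Submodule (ZMod 2) (Fin n → ZMod 2)),
    D v S W = finrank (ZMod 2) ↥W + (ρ + 4) → S.card ≤ ρ + 11 →
    ∃ f : Du n, W ≤ LinearMap.ker f ∧ (∃ e ∈ S, f (v e) ≠ 0) ∧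
      (S.filter fun i => f (v i) ≠ 0).card ≤ 5 := by
  induction ρ with
  | zero =>
    intro S W hD hS
    obtain ⟨f, hf, he, hc⟩ := light (v := v) (ρ := 3) hD
    refine ⟨f, hf, he, ?_⟩
    rw [show 2 * 2 ^ 3 - 1 = 15 from rfl, show 2 ^ 3 = 8 from rfl] at hc
    omega
  | succ ρ ih =>
    intro S W hD hS
    have hex : ∃ e ∈ S, v e ∉ W := by
      by_contra hno
      push Not at hno
      have h1 : span (ZMod 2) (v '' (S : Set ι)) ⊔ W = W := by
        rw [sup_eq_right, span_le]
        rintro _ ⟨e, he, rfl⟩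
        exact hno e he
      rw [D, h1] at hD
      omega
    obtain ⟨e, he, heW⟩ := hex
    have h1 : D v (S.erase e) (W ⊔ span (ZMod 2) {v e}) =
        finrank (ZMod 2) ↥(W ⊔ span (ZMod 2) {v e}) + (ρ + 4) := by
      rw [← D_insert, Finset.insert_erase he, hD, finrank_sup_span_singleton heW]
      ring
    have h2 : (S.erase e).card ≤ ρ + 11 := by
      rw [Finset.card_erase_of_mem he]; omega
    obtain ⟨f, hf, ⟨e', he', hfe'⟩, hc⟩ := ih _ _ h1 h2
    have hfe : f (v e) = 0 := hf (mem_sup_right (mem_span_singleton_self _))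
    refine ⟨f, le_trans le_sup_left hf, ⟨e', Finset.mem_of_mem_erase he', hfe'⟩, ?_⟩
    have h3 : S.filter (fun i => f (v i) ≠ 0) = (S.erase e).filter (fun i => f (v i) ≠ 0) := by
      ext i
      simp only [Finset.mem_filter, Finset.mem_erase]
      constructor
      · rintro ⟨hi, hfi⟩
        refine ⟨⟨fun h => hfi (by rw [h]; exact hfe), hi⟩, hfi⟩
      · rintro ⟨⟨_, hi⟩, hfi⟩
        exact ⟨hi, hfi⟩
    rw [h3]
    exact hc

/-- corank at most `7`, simple: a form which is nonzero on at most `5` elements -/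
lemma light5 {S : Finset ι} {W : Submodule (ZMod 2) (Fin n → ZMod 2)}
    (hl : ∀ e ∈ S, v e ∉ W) (hp : ∀ e ∈ S, ∀ e' ∈ S, e' ≠ e → v e + v e' ∉ W)
    (hne : S.Nonempty) (hc : Cor v S W 7) :
    ∃ f : Du n, W ≤ LinearMap.ker f ∧ (∃ e ∈ S, f (v e) ≠ 0) ∧
      (S.filter fun i => f (v i) ≠ 0).card ≤ 5 := by
  have hle := le_D (v := v) S W
  obtain ⟨ρ, hρ⟩ := Nat.exists_eq_add_of_le hle
  have hs := simple_card hρ hl hp
  have hSpos : 0 < S.card := Finset.card_pos.2 hne
  unfold Cor at hc
  have hc' : S.card ≤ ρ + 7 := by omega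
  match ρ, hρ, hs, hc' with
  | 0, hρ, hs, hc' =>
    have hs' : S.card + 1 ≤ 1 := hs
    omega
  | 1, hρ, hs, hc' =>
    obtain ⟨f, hf, he, hcc⟩ := light (v := v) (ρ := 0) hρ
    refine ⟨f, hf, he, ?_⟩
    have hs' : S.card + 1 ≤ 2 := hs
    rw [show 2 * 2 ^ 0 - 1 = 1 from rfl, show 2 ^ 0 = 1 from rfl] at hcc
    omega
  | 2, hρ, hs, hc' =>
    obtain ⟨f, hf, he, hcc⟩ := light (v := v) (ρ := 1) hρ
    refine ⟨f, hf, he, ?_⟩
    have hs' : S.card + 1 ≤ 4 := hs
    rw [show 2 * 2 ^ 1 - 1 = 3 from rfl, show 2 ^ 1 = 2 from rfl] at hcc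
    omega
  | 3, hρ, hs, hc' =>
    obtain ⟨f, hf, he, hcc⟩ := light (v := v) (ρ := 2) hρ
    refine ⟨f, hf, he, ?_⟩
    have hs' : S.card + 1 ≤ 8 := hs
    rw [show 2 * 2 ^ 2 - 1 = 7 from rfl, show 2 ^ 2 = 4 from rfl] at hcc
    omega
  | ρ + 4, hρ, hs, hc' =>
    exact light4 ρ S W hρ (by omega)

end Pool.Agent.Work.MP_9f8812_co
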