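import Pool.Agent.Work.MP_9f8812_co.SC2
import Pool.Agent.Work.MP_9f8812_co.SC3
import Pool.Agent.Work.MP_a8f287_co.Defs

/-!
# Small corank: cocircuits with five elements
-/

set_option autoImplicit false

namespace Pool.Agent.Work.MP_9f8812_co

open Submodule Module

variable {n : ℕ} {ι : Type} [DecidableEq ι] {v : ι → (Fin n → ZMod 2)}

/-- `b` is independent modulo `W` -/
def Ind {m : ℕ} (b : Fin m → (Fin n → ZMod 2)) (W : Submodule (ZMod 2) (Fin n → ZMod 2)) : Prop :=
  ∀ c : Fin m → ZMod 2, ∑ i, c i • b i ∈ W → c = 0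

/-- the number of elements congruent to combinations of `m` independent vectors -/
lemma count {S : Finset ι} {W : Submodule (ZMod 2) (Fin n → ZMod 2)} (hc : Cor v S W 7) {m : ℕ}
    {b : Fin m → (Fin n → ZMod 2)} (hb : Ind b W) (Z : Finset (Fin m → ZMod 2))
    (hZ : ∀ z ∈ Z, ∃ t ∈ S, v t + ∑ i, z i • b i ∈ W) : Z.card ≤ m + 7 := by
  classical
  rcases Z.eq_empty_or_nonempty with rfl | ⟨z0, hz0⟩
  · simp
  obtain ⟨t0, -, -⟩ := hZ z0 hz0
  have : Nonempty ι := ⟨t0⟩
  choose! t ht1 ht2 using hZ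
  have hinj : Set.InjOn t (Z : Set (Fin m → ZMod 2)) := by
    intro z hz z' hz' htt
    have h1 := add_mem (ht2 z hz) (ht2 z' hz')
    rw [htt] at h1
    have h2 : v (t z') + ∑ i, z i • b i + (v (t z') + ∑ i, z' i • b i) =
        ∑ i, (z + z') i • b i := by
      have h3 : ∑ i, (z + z') i • b i = ∑ i, z i • b i + ∑ i, z' i • b i := by
        rw [← Finset.sum_add_distrib]
        refine Finset.sum_congr rfl (fun i _ => ?_)
        rw [Pi.add_apply, add_smul]
      rw [h3]
      have h4 : v (t z') + ∑ i, z i • b i + (v (t z') + ∑ i, z' i • b i) =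
          (v (t z') + v (t z')) + (∑ i, z i • b i + ∑ i, z' i • b i) := by abel
      rw [h4, add_self_zero, zero_add]
    rw [h2] at h1
    have h5 := hb _ h1
    funext i
    have h6 := congrFun h5 i
    exact (by decide : ∀ a b : ZMod 2, a + b = 0 → a = b) _ _ h6
  have hTS : Z.image t ⊆ S := by
    intro x hx
    obtain ⟨z, hz, rfl⟩ := Finset.mem_image.1 hx
    exact ht1 z hz
  have hcT := Cor_mono v hTS hc
  unfold Cor at hcT
  rw [Finset.card_image_of_injOn hinj] at hcT
  have hD : D v (Z.image t) W ≤ finrank (ZMod 2) ↥W + m := by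
    have h1 : span (ZMod 2) (v '' ((Z.image t : Finset ι) : Set ι)) ⊔ W ≤
        W ⊔ span (ZMod 2) (Set.range b) := by
      refine sup_le (span_le.2 ?_) le_sup_left
      rintro _ ⟨x, hx, rfl⟩
      obtain ⟨z, hz, rfl⟩ := Finset.mem_image.1 (Finset.mem_coe.1 hx)
      have h2 : v (t z) = (v (t z) + ∑ i, z i • b i) + ∑ i, z i • b i := by
        rw [add_assoc, add_self_zero, add_zero]
      rw [h2]
      refine add_mem (mem_sup_left (ht2 z hz)) (mem_sup_right ?_)
      exact sum_mem (fun i _ => smul_mem _ _ (subset_span ⟨i, rfl⟩))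
    refine (Submodule.finrank_mono h1).trans ?_
    refine (Submodule.finrank_add_le_finrank_add_finrank _ _).trans ?_
    have h3 := finrank_range_le_card (R := ZMod 2) b
    rw [Fintype.card_fin] at h3
    rw [Set.finrank] at h3
    omega
  omega

lemma smul_single_sum {m : ℕ} (b : Fin m → (Fin n → ZMod 2)) (i : Fin m) :
    ∑ k, (Pi.single i (1 : ZMod 2) : Fin m → ZMod 2) k • b k = b i := by
  rw [Finset.sum_eq_single i]
  · rw [Pi.single_eq_same, one_smul]
  · intro k _ hk
    rw [Pi.single_eq_of_ne hk, zero_smul]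
  · intro h
    exact absurd (Finset.mem_univ i) h

lemma smul_add_sum {m : ℕ} (b : Fin m → (Fin n → ZMod 2)) (z z' : Fin m → ZMod 2) :
    ∑ k, (z + z') k • b k = ∑ k, z k • b k + ∑ k, z' k • b k := by
  rw [← Finset.sum_add_distrib]
  refine Finset.sum_congr rfl (fun i _ => ?_)
  rw [Pi.add_apply, add_smul]

/-- the standing assumptions on five elements `x` -/
structure Fv (v : ι → (Fin n → ZMod 2)) (S : Finset ι) (W : Submodule (ZMod 2) (Fin n → ZMod 2))
    (f : Du n) (x : Fin 5 → ι) : Prop where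
  fW : W ≤ LinearMap.ker f
  mem : ∀ i, x i ∈ S
  one : ∀ i, f (v (x i)) = 1
  ne : ∀ i j, i ≠ j → v (x i) + v (x j) ∉ W
  pair : ∀ i j, i ≠ j → ∃ h ∈ S, v h + (v (x i) + v (x j)) ∈ W

variable {S : Finset ι} {W : Submodule (ZMod 2) (Fin n → ZMod 2)} {f : Du n} {x : Fin 5 → ι}

lemma Fv.perm (h : Fv v S W f x) (σ : Equiv.Perm (Fin 5)) : Fv v S W f (x ∘ σ) :=
  ⟨h.fW, fun _ => h.mem _, fun _ => h.one _,
    fun _ _ hij => h.ne _ _ (fun h' => hij (σ.injective h')),
    fun _ _ hij => h.pair _ _ (fun h' => hij (σ.injective h'))⟩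

/-- parity -/
lemma parity {m : ℕ} (hfW : W ≤ LinearMap.ker f) {b : Fin m → (Fin n → ZMod 2)}
    (hb : ∀ i, f (b i) = 1) {c : Fin m → ZMod 2} (hc : ∑ i, c i • b i ∈ W) : ∑ i, c i = 0 := by
  have h1 : f (∑ i, c i • b i) = 0 := hfW hc
  rw [map_sum] at h1
  rw [← h1]
  refine Finset.sum_congr rfl (fun i _ => ?_)
  rw [map_smul, hb, smul_eq_mul, mul_one]

lemma par4 : ∀ c : Fin 4 → ZMod 2, ∑ i, c i = 0 → c = 0 ∨
    (∃ i j, i ≠ j ∧ c = Pi.single i 1 + Pi.single j 1) ∨ c = fun _ => 1 := by decide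

lemma par5 : ∀ c : Fin 5 → ZMod 2, ∑ i, c i = 0 → c = 0 ∨
    (∃ i j, i ≠ j ∧ c = Pi.single i 1 + Pi.single j 1) ∨
    ∃ l, c = (fun _ => 1) + Pi.single l 1 := by decide

/-- four vectors -/
lemma ind4 (hfW : W ≤ LinearMap.ker f) {b : Fin 4 → (Fin n → ZMod 2)} (hb : ∀ i, f (b i) = 1)
    (hne : ∀ i j, i ≠ j → b i + b j ∉ W) (hs : b 0 + b 1 + b 2 + b 3 ∉ W) : Ind b W := by
  intro c hc
  rcases par4 c (parity hfW hb hc) with h | ⟨i, j, hij, h⟩ | h
  · exact h
  · exfalso
    rw [h, smul_add_sum, smul_single_sum, smul_single_sum] at hc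
    exact hne i j hij hc
  · exfalso
    rw [h, Fin.sum_univ_four] at hc
    simp only [one_smul] at hc
    exact hs hc

/-- the first four or another four are independent -/
lemma Fv.ex4 (h : Fv v S W f x) : ∃ y : Fin 4 → Fin 5, Function.Injective y ∧
    Ind (fun i => v (x (y i))) W := by
  by_cases hs : v (x 0) + v (x 1) + v (x 2) + v (x 3) ∈ W
  · refine ⟨![0, 1, 2, 4], by decide, ind4 h.fW (fun i => h.one _) ?_ ?_⟩
    · intro i j hij
      exact h.ne _ _ ((by decide : Function.Injective (![0, 1, 2, 4] : Fin 4 → Fin 5)).ne hij)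
    · intro hs'
      refine h.ne 3 4 (by decide) ?_
      have h1 := add_mem hs hs'
      have h2 : v (x 0) + v (x 1) + v (x 2) + v (x 3) + (v (x (![0, 1, 2, 4] 0)) +
          v (x (![0, 1, 2, 4] 1)) + v (x (![0, 1, 2, 4] 2)) + v (x (![0, 1, 2, 4] 3))) =
          (v (x 0) + v (x 0)) + (v (x 1) + v (x 1)) + (v (x 2) + v (x 2)) +
            (v (x 3) + v (x 4)) := by
        show v (x 0) + v (x 1) + v (x 2) + v (x 3) + (v (x 0) + v (x 1) + v (x 2) + v (x 4)) = _
        abel
      rw [h2] at h1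
      simp only [add_self_zero, zero_add] at h1
      exact h1
  · refine ⟨![0, 1, 2, 3], by decide, ind4 h.fW (fun i => h.one _) ?_ hs⟩
    intro i j hij
    exact h.ne _ _ ((by decide : Function.Injective (![0, 1, 2, 3] : Fin 4 → Fin 5)).ne hij)

/-- the vectors of weight one or two -/
def Z12 (m : ℕ) : Finset (Fin m → ZMod 2) :=
  Finset.univ.image (fun i : Fin m => Pi.single i (1 : ZMod 2)) ∪
    ((Finset.univ : Finset (Fin m × Fin m)).filter (fun p => p.1 ≠ p.2)).image
      (fun p => Pi.single p.1 (1 : ZMod 2) + Pi.single p.2 1)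

lemma mem_Z12 {m : ℕ} {b : Fin m → (Fin n → ZMod 2)}
    (h1 : ∀ i, ∃ t ∈ S, v t + b i ∈ W) (h2 : ∀ i j, i ≠ j → ∃ t ∈ S, v t + (b i + b j) ∈ W) :
    ∀ z ∈ Z12 m, ∃ t ∈ S, v t + ∑ i, z i • b i ∈ W := by
  intro z hz
  rcases Finset.mem_union.1 hz with hz | hz
  · obtain ⟨i, -, rfl⟩ := Finset.mem_image.1 hz
    rw [smul_single_sum]
    exact h1 i
  · obtain ⟨⟨i, j⟩, hij, rfl⟩ := Finset.mem_image.1 hz
    rw [smul_add_sum, smul_single_sum, smul_single_sum]
    exact h2 i j (Finset.mem_filter.1 hij).2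

/-- corank at most `7`: not all pair sums of five elements are present -/
lemma Fv.cor (h : Fv v S W f x) (hc : Cor v S W 7) : False := by
  -- a dependent set of four
  have case1 : ∀ x : Fin 5 → ι, Fv v S W f x →
      v (x 0) + v (x 1) + v (x 2) + v (x 3) ∈ W → False := by
    intro x h hs
    set y : Fin 4 → Fin 5 := ![0, 1, 2, 4] with hy
    have hyinj : Function.Injective y := by rw [hy]; decide
    have hind : Ind (fun i => v (x (y i))) W := by
      refine ind4 h.fW (fun i => h.one _) (fun i j hij => h.ne _ _ (hyinj.ne hij)) ?_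
      intro hs'
      refine h.ne 3 4 (by decide) ?_
      have h1 := add_mem hs hs'
      have h2 : v (x 0) + v (x 1) + v (x 2) + v (x 3) + (v (x (y 0)) +
          v (x (y 1)) + v (x (y 2)) + v (x (y 3))) =
          (v (x 0) + v (x 0)) + (v (x 1) + v (x 1)) + (v (x 2) + v (x 2)) +
            (v (x 3) + v (x 4)) := by
        show v (x 0) + v (x 1) + v (x 2) + v (x 3) + (v (x 0) + v (x 1) + v (x 2) + v (x 4)) = _
        abel
      rw [h2] at h1
      simp only [add_self_zero, zero_add] at h1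
      exact h1
    have hZ := mem_Z12 (v := v) (S := S) (W := W) (b := fun i => v (x (y i)))
      (fun i => ⟨x (y i), h.mem _, by rw [add_self_zero]; exact zero_mem _⟩)
      (fun i j hij => h.pair _ _ (hyinj.ne hij))
    have hcount := count hc hind (Z12 4 ∪ {![1, 1, 1, 0], ![1, 1, 1, 1]}) (by
      intro z hz
      rcases Finset.mem_union.1 hz with hz | hz
      · exact hZ z hz
      · rw [Finset.mem_insert, Finset.mem_singleton] at hz
        rcases hz with rfl | rfl
        · refine ⟨x 3, h.mem 3, ?_⟩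
          rw [Fin.sum_univ_four]
          show v (x 3) + ((1 : ZMod 2) • v (x 0) + (1 : ZMod 2) • v (x 1) +
            (1 : ZMod 2) • v (x 2) + (0 : ZMod 2) • v (x 4)) ∈ W
          rw [one_smul, one_smul, one_smul, zero_smul, add_zero, add_comm]
          exact hs
        · obtain ⟨t, ht, htW⟩ := h.pair 3 4 (by decide)
          refine ⟨t, ht, ?_⟩
          rw [Fin.sum_univ_four]
          show v t + ((1 : ZMod 2) • v (x 0) + (1 : ZMod 2) • v (x 1) +
            (1 : ZMod 2) • v (x 2) + (1 : ZMod 2) • v (x 4)) ∈ W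
          rw [one_smul, one_smul, one_smul, one_smul]
          have h1 := add_mem htW hs
          have h2 : v t + (v (x 3) + v (x 4)) + (v (x 0) + v (x 1) + v (x 2) + v (x 3)) =
              v t + (v (x 0) + v (x 1) + v (x 2) + v (x 4)) + (v (x 3) + v (x 3)) := by abel
          rw [h2, add_self_zero, add_zero] at h1
          exact h1)
    have hcard : (Z12 4 ∪ {![1, 1, 1, 0], ![1, 1, 1, 1]} : Finset (Fin 4 → ZMod 2)).card = 12 := by
      decide
    omega
  by_cases hind : Ind (fun i => v (x i)) W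
  · have hZ := mem_Z12 (v := v) (S := S) (W := W) (b := fun i => v (x i))
      (fun i => ⟨x i, h.mem _, by rw [add_self_zero]; exact zero_mem _⟩)
      (fun i j hij => h.pair _ _ hij)
    have hcount := count hc hind (Z12 5) hZ
    have hcard : (Z12 5).card = 15 := by decide
    omega
  · unfold Ind at hind
    push Not at hind
    obtain ⟨c, hcW, hc0⟩ := hind
    rcases par5 c (parity h.fW (fun i => h.one i) hcW) with h0 | ⟨i, j, hij, hcc⟩ | ⟨l, hcc⟩
    · exact hc0 h0
    · rw [hcc, smul_add_sum, smul_single_sum, smul_single_sum] at hcW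
      exact h.ne i j hij hcW
    · rw [hcc, smul_add_sum, smul_single_sum] at hcW
      have h1 : ∑ k, (fun _ => (1 : ZMod 2)) k • v (x k) = ∑ k, v (x k) :=
        Finset.sum_congr rfl (fun k _ => one_smul _ _)
      rw [h1] at hcW
      refine case1 (x ∘ Equiv.swap l 4) (h.perm _) ?_
      have h2 : ∑ k, v (x k) = ∑ k, v ((x ∘ Equiv.swap l 4) k) :=
        (Equiv.sum_comp (Equiv.swap l 4) (fun k => v (x k))).symm
      have h3 : v (x l) = v ((x ∘ Equiv.swap l 4) 4) := by
        rw [Function.comp_apply, Equiv.swap_apply_right]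
      rw [h2, h3, Fin.sum_univ_five] at hcW
      rw [add_assoc _ (v ((x ∘ Equiv.swap l 4) 4)), add_self_zero, add_zero] at hcW
      exact hcW

/-- from a cocircuit with five elements to the assumptions `Fv` -/
lemma exists_Fv (hfW : W ≤ LinearMap.ker f)
    (hp : ∀ e ∈ S, ∀ e' ∈ S, e' ≠ e → v e + v e' ∉ W)
    (h5 : (S.filter fun i => f (v i) ≠ 0).card = 5)
    (hall : ¬ ∃ e₁ ∈ S, f (v e₁) ≠ 0 ∧ ∃ e₂ ∈ S, f (v e₂) ≠ 0 ∧ e₂ ≠ e₁ ∧
      ∀ h ∈ S, f (v h) = 0 → v e₁ + v e₂ + v h ∉ W) : ∃ x : Fin 5 → ι, Fv v S W f x := by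
  have e := (Finset.equivFinOfCardEq h5).symm
  have hmem : ∀ i, (e i : ι) ∈ S := fun i => (Finset.mem_filter.1 (e i).2).1
  have hne : ∀ i, f (v (e i)) ≠ 0 := fun i => (Finset.mem_filter.1 (e i).2).2
  refine ⟨fun i => (e i : ι), hfW, hmem, fun i =>
    (by decide : ∀ a : ZMod 2, a ≠ 0 → a = 1) _ (hne i), fun i j hij => ?_, fun i j hij => ?_⟩
  · exact hp _ (hmem i) _ (hmem j) (fun h => hij (e.injective (Subtype.ext h.symm)))
  · by_contra hno
    push Not at hno
    refine hall ⟨e i, hmem i, hne i, e j, hmem j, hne j,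
      fun h => hij (e.injective (Subtype.ext h.symm)), fun h hh _ hmemW => hno h hh ?_⟩
    rw [add_comm]
    exact hmemW

/-- the case of corank at most `7` -/
theorem pos_of_cor (S : Finset ι) : ∀ W : Submodule (ZMod 2) (Fin n → ZMod 2),
    (∀ e ∈ S, v e ∉ W) → Cor v S W 7 → 0 < P v S W := by
  induction S using Finset.strongInduction with
  | H S ih =>
    intro W hl hc
    have hIH : IH v S W := fun T Y hT hY hd hlT => ih T hT _ hlT (Cor_minor v hT.1 hY hd hc)
    rcases S.eq_empty_or_nonempty with rfl | hne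
    · rw [P]
      simp
    by_cases hp : ∀ e ∈ S, ∀ e' ∈ S, e' ≠ e → v e + v e' ∉ W
    · obtain ⟨f, hfW, ⟨e, he, hfe⟩, hcard⟩ := light5 hl hp hne hc
      by_cases h5 : (S.filter fun i => f (v i) ≠ 0).card = 5
      · by_cases hex : ∃ e₁ ∈ S, f (v e₁) ≠ 0 ∧ ∃ e₂ ∈ S, f (v e₂) ≠ 0 ∧ e₂ ≠ e₁ ∧
            ∀ h ∈ S, f (v h) = 0 → v e₁ + v e₂ + v h ∉ W
        · obtain ⟨e₁, he₁, hf₁, hrest⟩ := hex
          exact step hIH hl f hfW he₁ hf₁ hcard (fun _ => hrest)
        · obtain ⟨x, hx⟩ := exists_Fv hfW hp h5 hex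
          exact absurd hc (fun hc => hx.cor hc)
      · exact step hIH hl f hfW he hfe hcard (fun h => absurd h h5)
    · push Not at hp
      obtain ⟨e, he, e', he', hne', hpp⟩ := hp
      exact parallel hIH hl he he' hne' hpp

end Pool.Agent.Work.MP_9f8812_co
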