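import Mathlib

/-!
# Small corank: deletion and contraction for the characteristic polynomial at 5

`P v S W` is `5 ^ (n - rank)` times the characteristic polynomial at `5` of the matroid on `S`
with the subspace `W` contracted.
-/

set_option autoImplicit false

namespace Pool.Agent.Work.MP_9f8812_co

open Submodule Module

variable {n : ℕ} {ι : Type} [DecidableEq ι] (v : ι → (Fin n → ZMod 2))

/-- the dimension of the span of `W` and the vectors of `X` -/
noncomputable def D (X : Finset ι) (W : Submodule (ZMod 2) (Fin n → ZMod 2)) : ℕ :=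
  finrank (ZMod 2) ↥(span (ZMod 2) (v '' (X : Set ι)) ⊔ W)

/-- the characteristic polynomial at `5` (up to a power of `5`) -/
noncomputable def P (S : Finset ι) (W : Submodule (ZMod 2) (Fin n → ZMod 2)) : ℤ :=
  ∑ X ∈ S.powerset, (-1 : ℤ) ^ X.card * 5 ^ (n - D v X W)

lemma D_le (X : Finset ι) (W : Submodule (ZMod 2) (Fin n → ZMod 2)) : D v X W ≤ n := by
  have h := Submodule.finrank_le (span (ZMod 2) (v '' (X : Set ι)) ⊔ W)
  rw [Module.finrank_fin_fun] at h
  exact h

lemma sup_insert (e : ι) (X : Finset ι) (W : Submodule (ZMod 2) (Fin n → ZMod 2)) :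
    span (ZMod 2) (v '' ((insert e X : Finset ι) : Set ι)) ⊔ W =
      span (ZMod 2) (v '' (X : Set ι)) ⊔ (W ⊔ span (ZMod 2) {v e}) := by
  rw [Finset.coe_insert, Set.image_insert_eq, span_insert]
  rw [sup_comm W, ← sup_assoc, sup_comm (span (ZMod 2) (v '' (X : Set ι)))]

lemma D_insert (e : ι) (X : Finset ι) (W : Submodule (ZMod 2) (Fin n → ZMod 2)) :
    D v (insert e X) W = D v X (W ⊔ span (ZMod 2) {v e}) := by
  rw [D, D, sup_insert]

/-- deletion and contraction -/
lemma P_insert {e : ι} {S : Finset ι} (he : e ∉ S) (W : Submodule (ZMod 2) (Fin n → ZMod 2)) :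
    P v (insert e S) W = P v S W - P v S (W ⊔ span (ZMod 2) {v e}) := by
  rw [P, Finset.sum_powerset_insert he, P, P, sub_eq_add_neg, ← Finset.sum_neg_distrib]
  congr 1
  refine Finset.sum_congr rfl (fun X hX => ?_)
  have heX : e ∉ X := fun h => he (Finset.mem_powerset.1 hX h)
  rw [Finset.card_insert_of_notMem heX, D_insert, pow_succ]
  ring

/-- loops -/
lemma P_loop {e : ι} {S : Finset ι} (he : e ∈ S) {W : Submodule (ZMod 2) (Fin n → ZMod 2)}
    (hW : v e ∈ W) : P v S W = 0 := by
  rw [← Finset.insert_erase he, P_insert v (Finset.notMem_erase e S)]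
  have h : W ⊔ span (ZMod 2) {v e} = W := by
    rw [sup_eq_left, span_singleton_le_iff_mem]
    exact hW
  rw [h, sub_self]

/-- contraction of a coloop -/
lemma P_coloop {S : Finset ι} {W : Submodule (ZMod 2) (Fin n → ZMod 2)} {x : Fin n → ZMod 2}
    (f : (Fin n → ZMod 2) →ₗ[ZMod 2] ZMod 2) (hW : W ≤ LinearMap.ker f)
    (hS : ∀ i ∈ S, f (v i) = 0) (hx : f x ≠ 0) :
    5 * P v S (W ⊔ span (ZMod 2) {x}) = P v S W := by
  rw [P, P, Finset.mul_sum]
  refine Finset.sum_congr rfl (fun X hX => ?_)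
  have hX' := Finset.mem_powerset.1 hX
  have h1 : D v X (W ⊔ span (ZMod 2) {x}) = D v X W + 1 := by
    rw [D, D, ← sup_assoc]
    have h2 : x ∉ span (ZMod 2) (v '' (X : Set ι)) ⊔ W := by
      intro h
      have h3 : span (ZMod 2) (v '' (X : Set ι)) ⊔ W ≤ LinearMap.ker f := by
        refine sup_le (span_le.2 ?_) hW
        rintro _ ⟨i, hi, rfl⟩
        exact hS i (hX' hi)
      exact hx (h3 h)
    exact finrank_sup_span_singleton h2
  have h2 := D_le v X (W ⊔ span (ZMod 2) {x})
  rw [h1] at h2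
  have h3 : n - D v X W = (n - D v X (W ⊔ span (ZMod 2) {x})) + 1 := by rw [h1]; omega
  rw [h3, pow_succ]
  ring

/-! ### Corank -/

lemma D_insert_le (e : ι) (X : Finset ι) (W : Submodule (ZMod 2) (Fin n → ZMod 2)) :
    D v (insert e X) W ≤ D v X W + 1 := by
  rw [D_insert, D, D, ← sup_assoc]
  by_cases h : v e ∈ span (ZMod 2) (v '' (X : Set ι)) ⊔ W
  · have h1 : (span (ZMod 2) (v '' (X : Set ι)) ⊔ W) ⊔ span (ZMod 2) {v e} =
        span (ZMod 2) (v '' (X : Set ι)) ⊔ W := by
      rw [sup_eq_left, span_singleton_le_iff_mem]; exact h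
    rw [h1]; omega
  · rw [finrank_sup_span_singleton h]

/-- `M` has corank at most `s` -/
def Cor (S : Finset ι) (W : Submodule (ZMod 2) (Fin n → ZMod 2)) (s : ℕ) : Prop :=
  S.card + finrank (ZMod 2) ↥W ≤ D v S W + s

lemma D_union_le (X Y : Finset ι) (W : Submodule (ZMod 2) (Fin n → ZMod 2)) :
    D v (X ∪ Y) W ≤ D v X W + Y.card := by
  induction Y using Finset.induction_on with
  | empty => simp
  | insert e Y he ih =>
    rw [Finset.union_insert, Finset.card_insert_of_notMem he]
    have := D_insert_le v e (X ∪ Y) W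
    omega

lemma Cor_mono {S T : Finset ι} {W : Submodule (ZMod 2) (Fin n → ZMod 2)} {s : ℕ} (h : T ⊆ S)
    (hS : Cor v S W s) : Cor v T W s := by
  unfold Cor at *
  have h1 := D_union_le v T (S \ T) W
  rw [Finset.union_sdiff_of_subset h] at h1
  have h2 := Finset.card_sdiff_add_card_eq_card h
  omega

lemma D_zero (W : Submodule (ZMod 2) (Fin n → ZMod 2)) : D v ∅ W = finrank (ZMod 2) ↥W := by
  rw [D, Finset.coe_empty, Set.image_empty, span_empty, bot_sup_eq]

lemma D_union (T Y : Finset ι) (W : Submodule (ZMod 2) (Fin n → ZMod 2)) :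
    D v T (W ⊔ span (ZMod 2) (v '' (Y : Set ι))) = D v (T ∪ Y) W := by
  rw [D, D, Finset.coe_union, Set.image_union, span_union, sup_comm W, ← sup_assoc]

lemma Cor_minor {S T Y : Finset ι} {W : Submodule (ZMod 2) (Fin n → ZMod 2)} {s : ℕ} (hT : T ⊆ S)
    (hY : Y ⊆ S) (hd : Disjoint T Y) (hS : Cor v S W s) :
    Cor v T (W ⊔ span (ZMod 2) (v '' (Y : Set ι))) s := by
  have h1 := Cor_mono v (Finset.union_subset hT hY) hS
  unfold Cor at *
  rw [D_union]
  have h2 : finrank (ZMod 2) ↥(W ⊔ span (ZMod 2) (v '' (Y : Set ι))) ≤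
      finrank (ZMod 2) ↥W + Y.card := by
    have h3 := D_union_le v ∅ Y W
    rw [Finset.empty_union, D_zero] at h3
    rw [sup_comm]
    exact h3
  rw [Finset.card_union_of_disjoint hd] at h1
  omega

end Pool.Agent.Work.MP_9f8812_co
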