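import Pool.Agent.Work.MP_9f8812_co.SC1

/-!
# Small corank: a small cocircuit gives positivity
-/

set_option autoImplicit false

namespace Pool.Agent.Work.MP_9f8812_co

open Submodule Module

variable {n : ℕ} {ι : Type} [DecidableEq ι] (v : ι → (Fin n → ZMod 2))

/-- positivity, unless there is a loop -/
def Pos (S : Finset ι) (W : Submodule (ZMod 2) (Fin n → ZMod 2)) : Prop :=
  (∀ e ∈ S, v e ∉ W) → 0 < P v S W

/-- positivity for all proper minors -/
def IH (S : Finset ι) (W : Submodule (ZMod 2) (Fin n → ZMod 2)) : Prop :=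
  ∀ T Y : Finset ι, T ⊂ S → Y ⊆ S → Disjoint T Y →
    Pos v T (W ⊔ span (ZMod 2) (v '' (Y : Set ι)))

variable {v} {S : Finset ι} {W : Submodule (ZMod 2) (Fin n → ZMod 2)}

lemma nonneg (hIH : IH v S W) {T Y : Finset ι} (hT : T ⊂ S) (hY : Y ⊆ S) (hd : Disjoint T Y) :
    0 ≤ P v T (W ⊔ span (ZMod 2) (v '' (Y : Set ι))) := by
  by_cases h : ∀ e ∈ T, v e ∉ W ⊔ span (ZMod 2) (v '' (Y : Set ι))
  · exact (hIH T Y hT hY hd h).le
  · push Not at h
    obtain ⟨e, he, h⟩ := h
    rw [P_loop v he h]

lemma sup1 (e : ι) : W ⊔ span (ZMod 2) (v '' (({e} : Finset ι) : Set ι)) =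
    W ⊔ span (ZMod 2) {v e} := by
  rw [Finset.coe_singleton, Set.image_singleton]

lemma sup2 (e e' : ι) : W ⊔ span (ZMod 2) (v '' (({e', e} : Finset ι) : Set ι)) =
    W ⊔ span (ZMod 2) {v e} ⊔ span (ZMod 2) {v e'} := by
  rw [Finset.coe_insert, Finset.coe_singleton, Set.image_pair, span_insert, sup_assoc,
    sup_comm (span (ZMod 2) {v e})]

lemma ssub {T : Finset ι} {e : ι} (he : e ∈ S) (hT : T ⊆ S) (h : e ∉ T) : T ⊂ S :=
  Finset.ssubset_iff_subset_ne.2 ⟨hT, fun h' => h (h' ▸ he)⟩

/-- more elements, smaller polynomial -/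
lemma mono (hIH : IH v S W) {e : ι} (he : e ∈ S) {T : Finset ι} (hT : T ⊆ S) (heT : e ∉ T)
    (R : Finset ι) (hR : R ⊆ S) (heR : e ∉ R) :
    P v (T ∪ R) (W ⊔ span (ZMod 2) {v e}) ≤ P v T (W ⊔ span (ZMod 2) {v e}) := by
  induction R using Finset.induction_on with
  | empty => rw [Finset.union_empty]
  | insert x R hx ih =>
    have hR' : R ⊆ S := (Finset.subset_insert x R).trans hR
    have heR' : e ∉ R := fun h => heR (Finset.mem_insert_of_mem h)
    have hxS : x ∈ S := hR (Finset.mem_insert_self x R)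
    have hxe : e ≠ x := fun h => heR (h ▸ Finset.mem_insert_self x R)
    refine le_trans ?_ (ih hR' heR')
    rw [Finset.union_insert]
    by_cases hxT : x ∈ T ∪ R
    · rw [Finset.insert_eq_of_mem hxT]
    · rw [P_insert v hxT, ← sup2]
      have h1 : T ∪ R ⊆ S := Finset.union_subset hT hR'
      have h2 : e ∉ T ∪ R := by
        rw [Finset.mem_union]; rintro (h | h)
        · exact heT h
        · exact heR' h
      have h := nonneg hIH (ssub he h1 h2) (Y := {x, e}) (by
        intro y hy
        rw [Finset.mem_insert, Finset.mem_singleton] at hy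
        rcases hy with rfl | rfl
        · exact hxS
        · exact he) (by
        rw [Finset.disjoint_right]
        intro y hy
        rw [Finset.mem_insert, Finset.mem_singleton] at hy
        rcases hy with rfl | rfl
        · exact hxT
        · exact h2)
      linarith

/-- the basic inequality -/
lemma basic (hIH : IH v S W) (f : (Fin n → ZMod 2) →ₗ[ZMod 2] ZMod 2) (hfW : W ≤ LinearMap.ker f)
    {e₁ : ι} (he₁ : e₁ ∈ S) (hf₁ : f (v e₁) ≠ 0) (C : Finset ι) (hC : C ⊆ S)
    (hfC : ∀ e ∈ C, f (v e) ≠ 0) (h₁C : e₁ ∉ C) :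
    (4 - (C.card : ℤ)) * P v (S.filter fun i => f (v i) = 0) W +
      5 * ∑ e ∈ C, P v (S.filter fun i => f (v i) = 0)
        (W ⊔ span (ZMod 2) {v e} ⊔ span (ZMod 2) {v e₁}) ≤
      5 * P v (insert e₁ (S.filter fun i => f (v i) = 0) ∪ C) W := by
  set H := S.filter fun i => f (v i) = 0 with hH
  have hHS : H ⊆ S := Finset.filter_subset _ _
  have hfH : ∀ i ∈ H, f (v i) = 0 := fun i hi => (Finset.mem_filter.1 hi).2
  have h1H : e₁ ∉ H := fun h => hf₁ (hfH _ h)
  induction C using Finset.induction_on with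
  | empty =>
    rw [Finset.union_empty, P_insert v h1H, Finset.sum_empty, Finset.card_empty]
    have h := P_coloop v f hfW hfH hf₁
    push_cast
    linarith
  | insert e C heC ih =>
    have hC' : C ⊆ S := (Finset.subset_insert e C).trans hC
    have heS : e ∈ S := hC (Finset.mem_insert_self e C)
    have hfe : f (v e) ≠ 0 := hfC e (Finset.mem_insert_self e C)
    have h1C' : e₁ ∉ C := fun h => h₁C (Finset.mem_insert_of_mem h)
    have h1e : e ≠ e₁ := fun h => h₁C (h ▸ Finset.mem_insert_self e C)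
    have ih' := ih hC' (fun x hx => hfC x (Finset.mem_insert_of_mem hx)) h1C'
    have heH : e ∉ H := fun h => hfe (hfH _ h)
    have heI : e ∉ insert e₁ H := by
      rw [Finset.mem_insert]; rintro (h | h)
      · exact h1e h
      · exact heH h
    have heU : e ∉ insert e₁ H ∪ C := by
      rw [Finset.mem_union]; rintro (h | h)
      · exact heI h
      · exact heC h
    rw [Finset.union_insert, P_insert v heU, Finset.sum_insert heC,
      Finset.card_insert_of_notMem heC]
    have hIS : insert e₁ H ⊆ S := Finset.insert_subset he₁ hHS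
    have h2 := mono hIH heS hIS heI C hC' heC
    rw [P_insert v h1H] at h2
    have h3 := P_coloop v f hfW hfH hfe
    push_cast
    linarith

/-- a light functional gives positivity -/
lemma step (hIH : IH v S W) (hl : ∀ e ∈ S, v e ∉ W)
    (f : (Fin n → ZMod 2) →ₗ[ZMod 2] ZMod 2) (hfW : W ≤ LinearMap.ker f)
    {e₁ : ι} (he₁ : e₁ ∈ S) (hf₁ : f (v e₁) ≠ 0)
    (hcard : (S.filter fun i => f (v i) ≠ 0).card ≤ 5)
    (h5 : (S.filter fun i => f (v i) ≠ 0).card = 5 → ∃ e₂ ∈ S, f (v e₂) ≠ 0 ∧ e₂ ≠ e₁ ∧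
      ∀ h ∈ S, f (v h) = 0 → v e₁ + v e₂ + v h ∉ W) : 0 < P v S W := by
  set H := S.filter fun i => f (v i) = 0 with hH
  set C := S.filter fun i => f (v i) ≠ 0 with hC
  have hHS : H ⊆ S := Finset.filter_subset _ _
  have hfH : ∀ i ∈ H, f (v i) = 0 := fun i hi => (Finset.mem_filter.1 hi).2
  have h1H : e₁ ∉ H := fun h => hf₁ (hfH _ h)
  have h1C : e₁ ∈ C := Finset.mem_filter.2 ⟨he₁, hf₁⟩
  have hb := basic hIH f hfW he₁ hf₁ (C.erase e₁) ((Finset.erase_subset _ _).trans
    (Finset.filter_subset _ _)) (fun e he => (Finset.mem_filter.1 (Finset.mem_of_mem_erase he)).2)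
    (Finset.notMem_erase _ _)
  have hS : insert e₁ (S.filter fun i => f (v i) = 0) ∪ C.erase e₁ = S := by
    ext i
    simp only [Finset.mem_union, Finset.mem_insert, Finset.mem_filter, Finset.mem_erase, hC]
    constructor
    · rintro ((rfl | h) | h)
      · exact he₁
      · exact h.1
      · exact h.2.1
    · intro hi
      by_cases h0 : f (v i) = 0
      · exact Or.inl (Or.inr ⟨hi, h0⟩)
      · by_cases h1 : i = e₁
        · exact Or.inl (Or.inl h1)
        · exact Or.inr ⟨h1, hi, h0⟩
  rw [hS, Finset.card_erase_of_mem h1C] at hb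
  have hCpos : 0 < C.card := Finset.card_pos.2 ⟨e₁, h1C⟩
  have hHssub : H ⊂ S := ssub he₁ hHS h1H
  have hPH : 0 < P v H W := by
    have h := hIH H ∅ hHssub (Finset.empty_subset _) (Finset.disjoint_empty_right _)
    rw [Finset.coe_empty, Set.image_empty, span_empty, sup_bot_eq] at h
    exact h (fun e he => hl e (hHS he))
  have hterm : ∀ e ∈ C.erase e₁, 0 ≤ P v H (W ⊔ span (ZMod 2) {v e} ⊔ span (ZMod 2) {v e₁}) := by
    intro e he
    have heC := Finset.mem_of_mem_erase he
    rw [← sup2]
    refine nonneg hIH hHssub ?_ ?_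
    · intro y hy
      rw [Finset.mem_insert, Finset.mem_singleton] at hy
      rcases hy with rfl | rfl
      · exact he₁
      · exact (Finset.mem_filter.1 heC).1
    · rw [Finset.disjoint_right]
      intro y hy hyH
      rw [Finset.mem_insert, Finset.mem_singleton] at hy
      rcases hy with rfl | rfl
      · exact h1H hyH
      · exact (Finset.mem_filter.1 heC).2 (hfH _ hyH)
  have hsum : 0 ≤ ∑ e ∈ C.erase e₁, P v H (W ⊔ span (ZMod 2) {v e} ⊔ span (ZMod 2) {v e₁}) :=
    Finset.sum_nonneg hterm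
  rcases Nat.lt_or_ge C.card 5 with hlt | hge
  · have h1 : (0 : ℤ) < 4 - ((C.card - 1 : ℕ) : ℤ) := by
      have : C.card - 1 < 4 := by omega
      omega
    have h2 := mul_pos h1 hPH
    linarith
  · have h5' := h5 (by omega)
    obtain ⟨e₂, he₂, hf₂, h12, hno⟩ := h5'
    have h2C : e₂ ∈ C.erase e₁ := Finset.mem_erase.2 ⟨h12, Finset.mem_filter.2 ⟨he₂, hf₂⟩⟩
    have hpos2 : 0 < P v H (W ⊔ span (ZMod 2) {v e₂} ⊔ span (ZMod 2) {v e₁}) := by
      rw [← sup2]
      refine hIH H {e₁, e₂} hHssub ?_ ?_ ?_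
      · intro y hy
        rw [Finset.mem_insert, Finset.mem_singleton] at hy
        rcases hy with rfl | rfl
        · exact he₁
        · exact he₂
      · rw [Finset.disjoint_right]
        intro y hy hyH
        rw [Finset.mem_insert, Finset.mem_singleton] at hy
        rcases hy with rfl | rfl
        · exact h1H hyH
        · exact hf₂ (hfH _ hyH)
      · intro h hh hmem
        rw [sup2] at hmem
        obtain ⟨y, hy, z, hz, hyz⟩ := mem_sup.1 hmem
        obtain ⟨w, hw, z', hz', hyz'⟩ := mem_sup.1 hy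
        obtain ⟨b, rfl⟩ := mem_span_singleton.1 hz
        obtain ⟨a, rfl⟩ := mem_span_singleton.1 hz'
        have hfw : f w = 0 := hfW hw
        have hfh := hfH h hh
        have h2 : v h = w + a • v e₂ + b • v e₁ := by rw [hyz', hyz]
        have hone : ∀ x : ZMod 2, x ≠ 0 → x = 1 := by decide
        have hab : a = b := by
          have h3 : f (v h) = f w + a • f (v e₂) + b • f (v e₁) := by
            rw [h2]; simp
          rw [hfh, hfw, hone _ hf₁, hone _ hf₂] at h3
          exact (by decide : ∀ a b : ZMod 2, 0 = 0 + a • (1 : ZMod 2) + b • (1 : ZMod 2) → a = b)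
            a b h3
        subst hab
        rcases (by decide : ∀ x : ZMod 2, x = 0 ∨ x = 1) a with rfl | rfl
        · rw [zero_smul, zero_smul, add_zero, add_zero] at h2
          exact hl h (hHS hh) (h2 ▸ hw)
        · rw [one_smul, one_smul] at h2
          refine hno h (hHS hh) hfh ?_
          have h4 : v e₁ + v e₂ + v h = w := by
            rw [h2]
            have h5 : v e₁ + v e₂ + (w + v e₂ + v e₁) = w + (v e₁ + v e₁) + (v e₂ + v e₂) := by
              abel
            have h6 : ∀ u : Fin n → ZMod 2, u + u = 0 := fun u => by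
              funext i; exact (by decide : ∀ x : ZMod 2, x + x = 0) (u i)
            rw [h5, h6, h6, add_zero, add_zero]
          rw [h4]; exact hw
    have hsum2 : 0 < ∑ e ∈ C.erase e₁,
        P v H (W ⊔ span (ZMod 2) {v e} ⊔ span (ZMod 2) {v e₁}) :=
      Finset.sum_pos' hterm ⟨e₂, h2C, hpos2⟩
    have h1 : (0 : ℤ) ≤ 4 - ((C.card - 1 : ℕ) : ℤ) := by
      have : C.card - 1 ≤ 4 := by omega
      omega
    have h2 := mul_nonneg h1 hPH.le
    linarith

/-- parallel elements -/
lemma parallel (hIH : IH v S W) (hl : ∀ e ∈ S, v e ∉ W) {e e' : ι} (he : e ∈ S) (he' : e' ∈ S)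
    (hne : e' ≠ e) (hp : v e + v e' ∈ W) : 0 < P v S W := by
  rw [← Finset.insert_erase he, P_insert v (Finset.notMem_erase e S)]
  have h1 : v e' ∈ W ⊔ span (ZMod 2) {v e} := by
    have h2 : v e' = (v e + v e') + v e := by
      have h6 : ∀ u : Fin n → ZMod 2, u + u = 0 := fun u => by
        funext i; exact (by decide : ∀ x : ZMod 2, x + x = 0) (u i)
      have h7 : v e + v e' + v e = v e' + (v e + v e) := by abel
      rw [h7, h6, add_zero]
    rw [h2]
    exact add_mem (mem_sup_left hp) (mem_sup_right (mem_span_singleton_self _))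
  rw [P_loop v (Finset.mem_erase.2 ⟨hne, he'⟩) h1, sub_zero]
  have h := hIH (S.erase e) ∅ (Finset.erase_ssubset he) (Finset.empty_subset _)
    (Finset.disjoint_empty_right _)
  rw [Finset.coe_empty, Set.image_empty, span_empty, sup_bot_eq] at h
  exact h (fun x hx => hl x (Finset.mem_of_mem_erase hx))

end Pool.Agent.Work.MP_9f8812_co
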