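import Pool.Agent.Work.MP_9f8812_co.SC4

/-!
# Small corank: a smallest counterexample
-/

set_option autoImplicit false

namespace Pool.Agent.Work.MP_9f8812_co

open Submodule Module

variable {n : ℕ} {ι : Type} [DecidableEq ι] {v : ι → (Fin n → ZMod 2)}

/-- the assumptions `Fv` give an `M(K5)`-minor -/
lemma Fv.k5 {Y S : Finset ι} {f : Du n} {x : Fin 5 → ι}
    (h : Fv v S (span (ZMod 2) (v '' (Y : Set ι))) f x) :
    Pool.Agent.WW.HasK5 (Set.range v) := by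
  obtain ⟨y, hy, hind⟩ := h.ex4
  refine ⟨span (ZMod 2) (v '' (Y : Set ι)), ?_, fun i => v (x (y i)), hind, ?_, ?_⟩
  · refine span_le.2 ?_
    rintro _ ⟨e, he, rfl⟩
    exact subset_span ⟨⟨e, rfl⟩, subset_span ⟨e, he, rfl⟩⟩
  · intro i
    exact ⟨v (x (y i)), ⟨_, rfl⟩, by rw [add_self_zero]; exact zero_mem _⟩
  · intro i j hij
    obtain ⟨t, -, ht⟩ := h.pair (y i) (y j) (hy.ne hij)
    exact ⟨v t, ⟨t, rfl⟩, ht⟩

lemma span_union_eq (Y Y' : Finset ι) :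
    span (ZMod 2) (v '' (Y : Set ι)) ⊔ span (ZMod 2) (v '' (Y' : Set ι)) =
      span (ZMod 2) (v '' ((Y ∪ Y' : Finset ι) : Set ι)) := by
  rw [Finset.coe_union, Set.image_union, span_union]

/-- a smallest counterexample -/
theorem smallest (hfree : ¬ Pool.Agent.WW.HasK5 (Set.range v)) (S : Finset ι)
    (h0 : ∀ e ∈ S, v e ≠ 0) (hP : P v S ⊥ ≤ 0) : ∃ T Y : Finset ι, Disjoint T Y ∧
    (∀ e ∈ T, v e ∉ span (ZMod 2) (v '' (Y : Set ι))) ∧
    (∀ e ∈ T, ∀ e' ∈ T, e' ≠ e → v e + v e' ∉ span (ZMod 2) (v '' (Y : Set ι))) ∧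
    P v T (span (ZMod 2) (v '' (Y : Set ι))) ≤ 0 ∧
    (∀ f : Du n, span (ZMod 2) (v '' (Y : Set ι)) ≤ LinearMap.ker f → (∃ e ∈ T, f (v e) ≠ 0) →
      6 ≤ (T.filter fun e => f (v e) ≠ 0).card) ∧
    ¬ Cor v T (span (ZMod 2) (v '' (Y : Set ι))) 7 := by
  classical
  let Cand : ℕ → Prop := fun k => ∃ T Y : Finset ι, Disjoint T Y ∧
    (∀ e ∈ T, v e ∉ span (ZMod 2) (v '' (Y : Set ι))) ∧
    P v T (span (ZMod 2) (v '' (Y : Set ι))) ≤ 0 ∧ T.card = k
  have hex : ∃ k, Cand k := by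
    refine ⟨S.card, S, ∅, Finset.disjoint_empty_right _, ?_, ?_, rfl⟩
    · intro e he h
      rw [Finset.coe_empty, Set.image_empty, span_empty, mem_bot] at h
      exact h0 e he h
    · rw [Finset.coe_empty, Set.image_empty, span_empty]
      exact hP
  obtain ⟨T, Y, hTY, hl, hPT, hcard⟩ := Nat.find_spec hex
  have hmin : ∀ T' Y' : Finset ι, Disjoint T' Y' → T'.card < T.card →
      (∀ e ∈ T', v e ∉ span (ZMod 2) (v '' (Y' : Set ι))) →
      0 < P v T' (span (ZMod 2) (v '' (Y' : Set ι))) := by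
    intro T' Y' hd hlt hl'
    by_contra hno
    push Not at hno
    exact Nat.find_min hex (hcard ▸ hlt) ⟨T', Y', hd, hl', hno, rfl⟩
  have hIH : IH v T (span (ZMod 2) (v '' (Y : Set ι))) := by
    intro T' Y' hT' hY' hd hl'
    rw [span_union_eq] at hl' ⊢
    refine hmin T' (Y ∪ Y') ?_ (Finset.card_lt_card hT') hl'
    rw [Finset.disjoint_union_right]
    exact ⟨Finset.disjoint_of_subset_left hT'.1 hTY, hd⟩
  have hnot : ¬ 0 < P v T (span (ZMod 2) (v '' (Y : Set ι))) := not_lt.2 hPT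
  have hsimple : ∀ e ∈ T, ∀ e' ∈ T, e' ≠ e →
      v e + v e' ∉ span (ZMod 2) (v '' (Y : Set ι)) := by
    intro e he e' he' hne hp
    exact hnot (parallel hIH hl he he' hne hp)
  refine ⟨T, Y, hTY, hl, hsimple, hPT, ?_, fun hc => hnot (pos_of_cor T _ hl hc)⟩
  rintro f hfW ⟨e, he, hfe⟩
  by_contra hlt
  push Not at hlt
  have hcard5 : (T.filter fun e => f (v e) ≠ 0).card ≤ 5 := by omega
  by_cases h5 : (T.filter fun i => f (v i) ≠ 0).card = 5
  · by_cases hex : ∃ e₁ ∈ T, f (v e₁) ≠ 0 ∧ ∃ e₂ ∈ T, f (v e₂) ≠ 0 ∧ e₂ ≠ e₁ ∧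
        ∀ h ∈ T, f (v h) = 0 → v e₁ + v e₂ + v h ∉ span (ZMod 2) (v '' (Y : Set ι))
    · obtain ⟨e₁, he₁, hf₁, hrest⟩ := hex
      exact hnot (step hIH hl f hfW he₁ hf₁ hcard5 (fun _ => hrest))
    · obtain ⟨x, hx⟩ := exists_Fv hfW hsimple h5 hex
      exact hfree hx.k5
  · exact hnot (step hIH hl f hfW he hfe hcard5 (fun h => absurd h h5))

/-- the polynomial and the normalised polynomial -/
lemma P_eq (T Y : Finset ι) : P v T (span (ZMod 2) (v '' (Y : Set ι))) =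
    5 ^ (n - finrank (ZMod 2) ↥(span (ZMod 2) (v '' ((T ∪ Y : Finset ι) : Set ι)))) *
    ∑ X ∈ T.powerset, (-1 : ℤ) ^ X.card *
      5 ^ (finrank (ZMod 2) ↥(span (ZMod 2) (v '' ((T ∪ Y : Finset ι) : Set ι))) -
        finrank (ZMod 2) ↥(span (ZMod 2) (v '' ((X ∪ Y : Finset ι) : Set ι)))) := by
  rw [P, Finset.mul_sum]
  refine Finset.sum_congr rfl (fun X hX => ?_)
  have hX' := Finset.mem_powerset.1 hX
  have h1 : D v X (span (ZMod 2) (v '' (Y : Set ι))) =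
      finrank (ZMod 2) ↥(span (ZMod 2) (v '' ((X ∪ Y : Finset ι) : Set ι))) := by
    rw [D, span_union_eq]
  have h2 : finrank (ZMod 2) ↥(span (ZMod 2) (v '' ((X ∪ Y : Finset ι) : Set ι))) ≤
      finrank (ZMod 2) ↥(span (ZMod 2) (v '' ((T ∪ Y : Finset ι) : Set ι))) := by
    refine Submodule.finrank_mono (span_mono (Set.image_mono ?_))
    rw [Finset.coe_subset]
    exact Finset.union_subset_union_left hX'
  have h3 : finrank (ZMod 2) ↥(span (ZMod 2) (v '' ((T ∪ Y : Finset ι) : Set ι))) ≤ n := by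
    have h := Submodule.finrank_le (span (ZMod 2) (v '' ((T ∪ Y : Finset ι) : Set ι)))
    rw [Module.finrank_fin_fun] at h
    exact h
  rw [h1]
  have h4 : n - finrank (ZMod 2) ↥(span (ZMod 2) (v '' ((X ∪ Y : Finset ι) : Set ι))) =
      (n - finrank (ZMod 2) ↥(span (ZMod 2) (v '' ((T ∪ Y : Finset ι) : Set ι)))) +
      (finrank (ZMod 2) ↥(span (ZMod 2) (v '' ((T ∪ Y : Finset ι) : Set ι))) -
        finrank (ZMod 2) ↥(span (ZMod 2) (v '' ((X ∪ Y : Finset ι) : Set ι)))) := by omega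
  rw [h4, pow_add]
  ring

end Pool.Agent.Work.MP_9f8812_co
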